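import Pool.Agent.Helper71.UN.StD

/-!
# Project UN, module HOM: the labels `nu` are homogeneous
-/

set_option autoImplicit false

open Set Filter Topology Matrix
open scoped ContDiff ComplexConjugate

noncomputable section

namespace Pool.Agent.Helper42.UNC

open Pool.Agent.Helper71.UN

theorem hh_smul (d z : ℂ) (r : ℝ) : hh d ((r : ℂ) * z) = r * hh d z := by
  unfold hh
  rw [mul_assoc, Complex.im_ofReal_mul, mul_div_assoc]

theorem fstA_smul (d : ℕ → ℂ) (z : ℂ) (r : ℝ) (hr : 0 < r) (m : ℕ) :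
    ∀ i, fstA d i m ((r : ℂ) * z) = fstA d i m z := by
  induction m with
  | zero => intro i; rfl
  | succ m ih =>
    intro i
    have h : hh (d i) ((r : ℂ) * z) ≤ 0 ↔ hh (d i) z ≤ 0 := by
      rw [hh_smul]
      constructor
      · intro h; by_contra hc; push Not at hc; nlinarith [mul_pos hr hc]
      · intro h; exact mul_nonpos_of_nonneg_of_nonpos hr.le h
    unfold fstA
    simp only [h, ih]

theorem fstB_smul (d : ℕ → ℂ) (z : ℂ) (r : ℝ) (hr : 0 < r) (m : ℕ) :
    ∀ i, fstB d i m ((r : ℂ) * z) = fstB d i m z := by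
  induction m with
  | zero => intro i; rfl
  | succ m ih =>
    intro i
    have h : 0 ≤ hh (d i) ((r : ℂ) * z) ↔ 0 ≤ hh (d i) z := by
      rw [hh_smul]
      exact mul_nonneg_iff_of_pos_left hr
    unfold fstB
    simp only [h, ih]

theorem stz6_smul (v₀ a a' τ h z : ℂ) (r : ℝ) (hr : 0 < r) :
    stz6 v₀ a a' τ h ((r : ℂ) * z) = stz6 v₀ a a' τ h z := by
  have h0 : 0 < ((r : ℂ) * z * conj v₀).re ↔ 0 < (z * conj v₀).re := by
    rw [mul_assoc, Complex.re_ofReal_mul]
    exact mul_pos_iff_of_pos_left hr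
  unfold stz6
  simp only [h0, fstA_smul _ _ _ hr, fstB_smul _ _ _ hr]

theorem hHOM : StHOM := by
  intro k l v₀ a a' τ h lam c i z r hr
  cases c with
  | true =>
    show lb k l (stz6 v₀ a a' τ h ((r : ℂ) * z) i) = lb k l (stz6 v₀ a a' τ h z i)
    rw [stz6_smul _ _ _ _ _ _ _ hr]
  | false =>
    show lb k l (stz6 v₀ a a' τ h (-((r : ℂ) * z)) i) = lb k l (stz6 v₀ a a' τ h (-z) i)
    rw [← mul_neg, stz6_smul _ _ _ _ _ _ _ hr]

end Pool.Agent.Helper42.UNC
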