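import Pool.Agent.Helper54.UN.St

/-!
Project UN, part C, module SG1: the short vector `b - a`.
-/

set_option autoImplicit false

noncomputable section

namespace Pool.Agent.Helper42.UNC

open Set Filter Topology Pool.Agent.Helper71.UN Pool.Agent.Helper54.UN

private lemma core {c a1 a2 p q η : ℝ} (hc : 865 / 1000 < c) (hc0 : c < 867 / 1000)
    (hη : η ≤ 1 / 100) (h1 : |a1 - 1 / 2| ≤ η) (h2 : |a2 - c| ≤ η)
    (hq : |q| ≤ 2 * η) (h3 : 0 < 1 / 2 * q - c * p)
    (h4 : 0 < p * a2 - q * (a1 - 1)) : 0 < q ∧ |p| ≤ 3 / 5 * q ∧ q ≤ 1 / 50 := by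
  rw [abs_le] at h1 h2 hq
  have ha2 : 85 / 100 < a2 := by linarith

  have ha1' : a1 ≤ 51 / 100 := by linarith
  have ha1'' : 49 / 100 ≤ a1 := by linarith
  have hq0 : 0 < q := by
    by_contra hq0
    rw [not_lt] at hq0
    have hp : p < 0 := by
      by_contra hp
      rw [not_lt] at hp
      nlinarith [mul_nonneg (by linarith : (0 : ℝ) ≤ c) hp]
    nlinarith [mul_nonneg (by linarith : (0 : ℝ) ≤ -p) (by linarith : (0 : ℝ) ≤ a2),
      mul_nonneg (by linarith : (0 : ℝ) ≤ -q) (by linarith : (0 : ℝ) ≤ 1 - a1)]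
  refine ⟨hq0, ?_, by linarith⟩
  rw [abs_le]
  constructor
  · -- `p a2 > q (a1 - 1) ≥ - 0.51 q`
    by_contra hp
    rw [not_le] at hp
    nlinarith [mul_nonneg hq0.le (by linarith : (0 : ℝ) ≤ a1 - 49 / 100),
      mul_nonneg hq0.le (by linarith : (0 : ℝ) ≤ a2 - 85 / 100)]
  · by_contra hp
    rw [not_le] at hp
    nlinarith [mul_nonneg hq0.le (by linarith : (0 : ℝ) ≤ c - 865 / 1000)]

/-- SG1 -/
theorem hSG1 : StSG1 := by
  intro η a b τ s θ hη h
  have hs := s3_gt
  have hs' := s3_lt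
  have e1 : (a - (1 + om)).re = a.re - 1 / 2 := by
    simp [om]
    ring
  have e2 : (a - (1 + om)).im = a.im - Real.sqrt 3 / 2 := by
    simp [om]
  have e3 : (b - (1 + om)).im = b.im - Real.sqrt 3 / 2 := by
    simp [om]
  have h1 : |a.re - 1 / 2| ≤ η := by
    rw [← e1]
    exact (Complex.abs_re_le_norm _).trans h.ha
  have h2 : |a.im - Real.sqrt 3 / 2| ≤ η := by
    rw [← e2]
    exact (Complex.abs_im_le_norm _).trans h.ha
  have h3 : |b.im - Real.sqrt 3 / 2| ≤ η := by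
    rw [← e3]
    exact (Complex.abs_im_le_norm _).trans h.hb
  have h4 : |(b - a).im| ≤ 2 * η := by
    have e : (b - a).im = (b.im - Real.sqrt 3 / 2) - (a.im - Real.sqrt 3 / 2) := by
      simp
    rw [e]
    exact (abs_sub _ _).trans (by linarith)
  have h5 := h.h3
  have h6 := h.h2
  have e5 : dt (1 + om) (b - a) = 1 / 2 * (b - a).im - Real.sqrt 3 / 2 * (b - a).re := by
    simp [dt, om]
    ring
  have e6 : dt (b - a) (a - 1) = (b - a).re * a.im - (b - a).im * (a.re - 1) := by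
    simp [dt]
    ring
  rw [e5] at h5
  rw [e6] at h6
  exact core (by linarith) (by linarith) hη h1 h2 h4 h5 h6

end Pool.Agent.Helper42.UNC
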